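import Pool.Agent.AT12.Stmts2
import Pool.Agent.Helper8_AT8.DPW

/-!
# Squad AT12, row FSY: the sum over the conjugates
-/

open scoped BigOperators

noncomputable section

namespace Pool.Agent.PP.T12.H84

open Pool.Agent.Helper51_AWC Pool.Agent.Helper79_WRA Pool.Agent.PP Pool.Agent.PP.KF
open Pool.Agent.PP.K9 Pool.Agent.PP.K9.H97 Pool.Agent.PP.H75 Pool.Agent.PP.T3 Pool.Agent.PP.T2
open Pool.Agent.PP.T8

attribute [local instance] Ideal.Quotient.field

section tools

variable {G : Type} [Group G]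

/-- conjugation with an element of the normaliser, on the centraliser -/
def cE {V : Subgroup G} {s : G} (hs : s ∈ Subgroup.normalizer (V : Set G)) :
    Subgroup.centralizer (V : Set G) ≃* Subgroup.centralizer (V : Set G) where
  toFun x := ⟨s * x * s⁻¹, T8.H8.conj_cent hs x.2⟩
  invFun x := ⟨s⁻¹ * x * s, (T8.H8.cent_conj_iff hs).2 x.2⟩
  left_inv x := by
    apply Subtype.ext
    change s⁻¹ * (s * (x : G) * s⁻¹) * s = x
    group
  right_inv x := by
    apply Subtype.ext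
    change s * (s⁻¹ * (x : G) * s) * s⁻¹ = x
    group
  map_mul' x y := by
    apply Subtype.ext
    change s * ((x : G) * y) * s⁻¹ = s * (x : G) * s⁻¹ * (s * (y : G) * s⁻¹)
    group

variable [Finite G] {M : Ideal (integralClosure ℤ ℂ)} [M.IsMaximal]

theorem irrE_conj {V : Subgroup G} {γ : G → FF M} {s : G} (hs : s ∈ Tg V γ)
    (hcl : IsCl (fun t : Subgroup.centralizer (V : Set G) => γ t))
    {κ : Subgroup.centralizer (V : Set G) → ℂ}
    (hκ : κ ∈ IrrE M (fun t : Subgroup.centralizer (V : Set G) => γ t)) :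
    (fun c => κ (cE hs.1 c)) ∈ IrrE M (fun t : Subgroup.centralizer (V : Set G) => γ t) := by
  classical
  have h1 := (K9.H3.psi M _ _ ((cE hs.1 : Subgroup.centralizer (V : Set G) ≃*
    Subgroup.centralizer (V : Set G)) : Subgroup.centralizer (V : Set G) →*
    Subgroup.centralizer (V : Set G)) (cE hs.1).surjective
    (fun t : Subgroup.centralizer (V : Set G) => γ t) hcl).1
  have hγ : cj s γ = γ := by
    rw [cj_eq_iff]
    exact hs.2
  have hp : H75.push ((cE hs.1 : Subgroup.centralizer (V : Set G) ≃*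
      Subgroup.centralizer (V : Set G)) : Subgroup.centralizer (V : Set G) →*
      Subgroup.centralizer (V : Set G)) (fun t : Subgroup.centralizer (V : Set G) => γ t) =
      fun t : Subgroup.centralizer (V : Set G) => γ t := by
    funext y
    unfold H75.push
    rw [finsum_eq_single _ ((cE hs.1).symm y)]
    · rw [finsum_eq_if]
      have : ((cE hs.1 : Subgroup.centralizer (V : Set G) ≃*
        Subgroup.centralizer (V : Set G)) : Subgroup.centralizer (V : Set G) →*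
        Subgroup.centralizer (V : Set G)) ((cE hs.1).symm y) = y :=
        (cE hs.1).apply_symm_apply y
      rw [if_pos this]
      exact congrFun hγ y
    · intro x hx
      rw [finsum_eq_if, if_neg]
      intro h'
      apply hx
      rw [← h']
      exact ((cE hs.1).symm_apply_apply x).symm
  rw [hp] at h1
  rw [h1] at hκ
  exact hκ.2

theorem rs_cj {F : Type} [Field F] (z s : G) (a : G → F) :
    rs (Cu z) (cj s a) = cj s (rs (Cu (s⁻¹ * z * s)) a) := by
  classical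
  funext x
  change (if x ∈ Cu z then a (s⁻¹ * x * s) else 0) =
    if s⁻¹ * x * s ∈ Cu (s⁻¹ * z * s) then a (s⁻¹ * x * s) else 0
  have h : s⁻¹ * x * s ∈ Cu (s⁻¹ * z * s) ↔ x ∈ Cu z := by
    rw [Subgroup.mem_centralizer_singleton_iff, Subgroup.mem_centralizer_singleton_iff]
    constructor
    · intro h
      have h1 : s * (s⁻¹ * x * s * (s⁻¹ * z * s)) * s⁻¹ =
        s * (s⁻¹ * z * s * (s⁻¹ * x * s)) * s⁻¹ := by rw [h]
      have e1 : s * (s⁻¹ * x * s * (s⁻¹ * z * s)) * s⁻¹ = x * z := by group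
      have e2 : s * (s⁻¹ * z * s * (s⁻¹ * x * s)) * s⁻¹ = z * x := by group
      rwa [e1, e2] at h1
    · intro h
      have e1 : s⁻¹ * x * s * (s⁻¹ * z * s) = s⁻¹ * (x * z) * s := by group
      have e2 : s⁻¹ * z * s * (s⁻¹ * x * s) = s⁻¹ * (z * x) * s := by group
      rw [e1, e2, h]
  by_cases hx : x ∈ Cu z
  · rw [if_pos hx, if_pos (h.2 hx)]
  · rw [if_neg hx, if_neg (fun h' => hx (h.1 h'))]

/-- the conjugates of a coherent idempotent with the inertial group -/
theorem ci_cj {e : G → FF M} (he : IsCl e) {V : Subgroup G} {γ : G → FF M}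
    (hcl : IsCl (fun t : Subgroup.centralizer (V : Set G) => γ t)) {i : G → ℂ}
    (hi : Ci M e V γ i) {s : G} (hs : s ∈ Tg V γ) : Ci M e V γ (cj s i) := by
  have hγ : cj s γ = γ := by
    rw [cj_eq_iff]
    exact hs.2
  have hVn : ∀ v ∈ V, s⁻¹ * v * s ∈ V := by
    intro v hv
    have h2 := (Subgroup.mem_normalizer_iff.1 (inv_mem hs.1) v).1 hv
    rwa [inv_inv] at h2
  refine ⟨⟨?_, ?_, ?_⟩, ?_, ?_, ?_⟩
  · intro g
    exact hi.ip.rm _
  · rw [← cj_mulF, hi.ip.id]
  · intro v hv x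
    change i (s⁻¹ * (v * x * v⁻¹) * s) = i (s⁻¹ * x * s)
    rw [← hi.ip.iv _ (hVn v hv) (s⁻¹ * x * s)]
    congr 1
    group
  · change mulF (br V (cj s (rd M i))) γ = br V (cj s (rd M i))
    rw [T8.H8.br_cj_norm hs.1]
    conv_lhs => rw [← hγ]
    rw [← cj_mulF, hi.gm]
  · intro z hz b hb
    change mulF (rs (Cu z) (cj s (rd M i))) b = rs (Cu z) (cj s (rd M i))
    have h1 : Lc e V γ (s⁻¹ * z * s) (cj s⁻¹ b) :=
      T8.H8.lc_cj he (inv_mem hs) (by rw [inv_inv]) hb
    have h2 := congrArg (cj s) (hi.lb _ (hVn z hz) _ h1)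
    rw [cj_mulF, cj_cj_inv] at h2
    rw [rs_cj]
    exact h2
  · intro κ hκ
    have h1 := hi.nz _ (irrE_conj hs hcl hκ)
    have h2 : (∑ᶠ t : Subgroup.centralizer (V : Set G), cj s i t * κ t) =
        ∑ᶠ t : Subgroup.centralizer (V : Set G), i t * κ (cE hs.1 t) := by
      rw [← finsum_comp_equiv (cE hs.1).toEquiv]
      refine finsum_congr fun c => ?_
      change i (s⁻¹ * (s * (c : G) * s⁻¹) * s) * κ (cE hs.1 c) = _
      congr 2
      group
    rw [h2]
    exact h1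

omit [Finite G] in
theorem fv_cj {i χ : G → ℂ} (hχ : ∀ x y, χ (y * x * y⁻¹) = χ x) (t z : G) :
    fv i (t * z * t⁻¹) χ = fv (cj t⁻¹ i) z χ := by
  unfold fv
  rw [← finsum_comp_equiv (MulAut.conj t).toEquiv]
  refine finsum_congr fun h => ?_
  change i (t * h * t⁻¹) * χ (t * z * t⁻¹ * (t * h * t⁻¹)) =
    i (t⁻¹⁻¹ * h * t⁻¹) * χ (z * h)
  have e : t * z * t⁻¹ * (t * h * t⁻¹) = t * (z * h) * t⁻¹ := by group
  rw [e, hχ, inv_inv]

end tools

/-- FSY -/
theorem fsy (avi : AviStmt) : FsyStmt := by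
  intro ℓ _ M _ hM G H _ _ _ _ a e V γ y β π m K g hS i hi
  have he : IsCl e := hS.ld.blk.1.1
  have hcl : IsCl (fun t : Subgroup.centralizer (V : Set G) => γ t) := hS.ld.gam.blk.1.1
  have hex : ∀ q : Tg V γ ⧸ (Subgroup.centralizer (V : Set G)).subgroupOf (Tg V γ),
      ∃ n : Fin m → ℤ, (∀ s s', ((m * K + 1 : ℕ) : ℤ) ∣ n s - n s') ∧
      ∀ j : ℕ, ¬ ℓ ∣ j → ∀ χ ∈ Irr G,
        fv (cj ((q.out : G))⁻¹ i) (y ^ j) χ = ∑ s, (n s : ℂ) * Av ℓ π (y ^ j) (g s) χ :=
    fun q => avi ℓ M hM G H a e V γ y β π m K g hS _ (ci_cj he hcl hi (inv_mem q.out.2))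
  choose n hn1 hn2 using hex
  refine ⟨fun s => ∑ᶠ q, n q s, ?_, ?_⟩
  · intro s s'
    change ((m * K + 1 : ℕ) : ℤ) ∣ (∑ᶠ q, n q s) - ∑ᶠ q, n q s'
    let _ := Fintype.ofFinite (Tg V γ ⧸ (Subgroup.centralizer (V : Set G)).subgroupOf (Tg V γ))
    rw [finsum_eq_sum_of_fintype, finsum_eq_sum_of_fintype, ← Finset.sum_sub_distrib]
    exact Finset.dvd_sum fun q _ => hn1 q s s'
  · intro j hj χ hχ
    let _ := Fintype.ofFinite (Tg V γ ⧸ (Subgroup.centralizer (V : Set G)).subgroupOf (Tg V γ))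
    have hχc : ∀ x y, χ (y * x * y⁻¹) = χ x := fun x y => irr_conj hχ x y
    unfold fs
    rw [finsum_eq_sum_of_fintype]
    have h1 : ∀ q : Tg V γ ⧸ (Subgroup.centralizer (V : Set G)).subgroupOf (Tg V γ),
        fv i ((q.out : G) * y ^ j * (q.out : G)⁻¹) χ =
          ∑ s, (n q s : ℂ) * Av ℓ π (y ^ j) (g s) χ := by
      intro q
      rw [fv_cj hχc, hn2 q j hj χ hχ]
    rw [Finset.sum_congr rfl (fun q _ => h1 q), Finset.sum_comm]
    refine Finset.sum_congr rfl fun s _ => ?_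
    rw [← Finset.sum_mul]
    congr 1
    change _ = ((∑ᶠ q, n q s : ℤ) : ℂ)
    rw [finsum_eq_sum_of_fintype, Int.cast_sum]

end Pool.Agent.PP.T12.H84
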